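import Pool.Agent.helper36.BP.SpecE
import Pool.Agent.helper76.HK.PPR

set_option autoImplicit false

open Finset
open Pool.Agent.FI Pool.Agent.HK
open Pool.Agent.CH (nit rgh ll2)
open Pool.Agent.SK (tr0 Th)

noncomputable section

namespace Pool.Agent.BP

theorem SMB_nit_norm (t x : ℝ) : ‖nit t x‖ = 1 := by
  unfold nit
  exact Complex.norm_exp_ofReal_mul_I _

theorem SMB_nit_mul (t x y : ℝ) (hx : x ≠ 0) (hy : y ≠ 0) : nit t (x * y) = nit t x * nit t y := by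
  unfold nit
  rw [Real.log_mul hx hy, ← Complex.exp_add]
  congr 1
  push_cast
  ring

theorem SMB_nit_diff (t : ℝ) (n : ℕ) (hn : 1 ≤ n) :
    ‖nit t ((n + 1 : ℕ) : ℝ) - nit t (n : ℝ)‖ ≤ |t| / n := by
  have hn0 : (0 : ℝ) < n := by exact_mod_cast hn
  have h1 : nit t ((n + 1 : ℕ) : ℝ) - nit t (n : ℝ) = nit t (n : ℝ) *
      (Complex.exp (Complex.I * ((t * (Real.log ((n + 1 : ℕ) : ℝ) - Real.log n) : ℝ) : ℂ)) - 1) := by
    unfold nit
    rw [mul_sub, mul_one, ← Complex.exp_add]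
    congr 2
    push_cast
    ring
  rw [h1, norm_mul, SMB_nit_norm, one_mul]
  refine le_trans Real.norm_exp_I_mul_ofReal_sub_one_le ?_
  rw [Real.norm_eq_abs, abs_mul, div_eq_mul_inv]
  apply mul_le_mul_of_nonneg_left _ (abs_nonneg t)
  have h2 : Real.log ((n + 1 : ℕ) : ℝ) - Real.log n = Real.log (((n + 1 : ℕ) : ℝ) / n) := by
    rw [Real.log_div (by positivity) hn0.ne']
  rw [h2, abs_of_nonneg]
  · have h3 := Real.log_le_sub_one_of_pos (show (0 : ℝ) < ((n + 1 : ℕ) : ℝ) / n by positivity)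
    refine le_trans h3 (le_of_eq ?_)
    push_cast
    field_simp
    ring
  · apply Real.log_nonneg
    rw [le_div_iff₀ hn0]
    push_cast
    linarith

theorem SMB_abel (a g : ℕ → ℂ) (Y : ℕ) :
    ∑ n ∈ Ioc 0 Y, a n * g n = (∑ n ∈ Ioc 0 Y, a n) * g (Y + 1) -
      ∑ n ∈ Ioc 0 Y, (∑ k ∈ Ioc 0 n, a k) * (g (n + 1) - g n) := by
  induction Y with
  | zero => simp
  | succ Y ih =>
    rw [Finset.sum_Ioc_succ_top (Nat.zero_le Y), Finset.sum_Ioc_succ_top (Nat.zero_le Y),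
      Finset.sum_Ioc_succ_top (Nat.zero_le Y), ih]
    have : ∑ k ∈ Ioc 0 (Y + 1), a k = (∑ k ∈ Ioc 0 Y, a k) + a (Y + 1) :=
      Finset.sum_Ioc_succ_top (Nat.zero_le Y) _
    rw [this]
    ring

theorem SMB_sqrt (Y : ℕ) : ∑ n ∈ Ioc 0 Y, √(n : ℝ) / n ≤ 2 * √(Y : ℝ) := by
  induction Y with
  | zero => simp
  | succ Y ih =>
    rw [Finset.sum_Ioc_succ_top (Nat.zero_le Y)]
    have h1 : √((Y + 1 : ℕ) : ℝ) ^ 2 = ((Y + 1 : ℕ) : ℝ) := Real.sq_sqrt (by positivity)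
    have h2 : √(Y : ℝ) ^ 2 = (Y : ℝ) := Real.sq_sqrt (by positivity)
    have h3 : 0 < √((Y + 1 : ℕ) : ℝ) := Real.sqrt_pos.mpr (by positivity)
    have h4 : 0 ≤ √(Y : ℝ) := Real.sqrt_nonneg _
    have h5 : √(Y : ℝ) ≤ √((Y + 1 : ℕ) : ℝ) := Real.sqrt_le_sqrt (by push_cast; linarith)
    have h6 : √((Y + 1 : ℕ) : ℝ) / ((Y + 1 : ℕ) : ℝ) ≤ 2 * (√((Y + 1 : ℕ) : ℝ) - √(Y : ℝ)) := by
      rw [div_le_iff₀ (by positivity)]
      have h7 : ((Y + 1 : ℕ) : ℝ) = (Y : ℝ) + 1 := by push_cast; ring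
      have h8 : (√((Y + 1 : ℕ) : ℝ) - √(Y : ℝ)) * (√((Y + 1 : ℕ) : ℝ) + √(Y : ℝ)) = 1 := by
        have : (√((Y + 1 : ℕ) : ℝ) - √(Y : ℝ)) * (√((Y + 1 : ℕ) : ℝ) + √(Y : ℝ)) =
          √((Y + 1 : ℕ) : ℝ) ^ 2 - √(Y : ℝ) ^ 2 := by ring
        rw [this, h1, h2, h7]
        ring
      set s := √((Y + 1 : ℕ) : ℝ)
      set r := √(Y : ℝ)
      have h9 : 0 ≤ s - r := by linarith
      rw [← h1]
      have h10 : (s - r) * (s + r) ≤ (s - r) * (2 * s) :=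
        mul_le_mul_of_nonneg_left (by linarith) h9
      nlinarith
    linarith

/-- the sum with both twists -/
def SMB_S (ψ : ℤ × ℤ → ℂ) (i : ℕ) (κ τ : ℝ) (y : ℕ) : ℂ :=
  ∑ z ∈ FF y, HC ψ 0 i κ z * nit τ (nn z)

theorem SMB_partial (hSRF : SRF_stmt) (ψ : ℤ × ℤ → ℂ) (i : ℕ) (κ τ : ℝ) (M : ℝ) (hM : 0 ≤ M)
    (hP : ∀ y : ℕ, ‖∑ z ∈ FF y, HC ψ 0 i κ z‖ ≤ M * √(y : ℝ)) (Y : ℕ) :
    ‖SMB_S ψ i κ τ Y‖ ≤ M * (2 + 2 * |τ|) * √(Y : ℝ) := by
  have h1 : SMB_S ψ i κ τ Y = ∑ n ∈ Ioc 0 Y, rf (HC ψ 0 i κ) n * nit τ (n : ℝ) := by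
    unfold SMB_S
    rw [← hSRF.1 (fun z => HC ψ 0 i κ z * nit τ (nn z)) Y]
    apply Finset.sum_congr rfl
    intro n _
    unfold rf
    rw [Finset.sum_mul]
    apply Finset.sum_congr rfl
    intro z hz
    rw [Finset.mem_filter] at hz
    show HC ψ 0 i κ z * nit τ ((nn z : ℕ) : ℝ) = _
    rw [hz.2]
  have hP' : ∀ y : ℕ, ‖∑ n ∈ Ioc 0 y, rf (HC ψ 0 i κ) n‖ ≤ M * √(y : ℝ) := by
    intro y
    rw [hSRF.1 (HC ψ 0 i κ) y]
    exact hP y
  rw [h1, SMB_abel (rf (HC ψ 0 i κ)) (fun n : ℕ => nit τ (n : ℝ)) Y]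
  have h2 : ‖(∑ n ∈ Ioc 0 Y, rf (HC ψ 0 i κ) n) * nit τ ((Y + 1 : ℕ) : ℝ)‖ ≤ M * √(Y : ℝ) := by
    rw [norm_mul, SMB_nit_norm, mul_one]
    exact hP' Y
  have h3 : ‖∑ n ∈ Ioc 0 Y, (∑ k ∈ Ioc 0 n, rf (HC ψ 0 i κ) k) *
      (nit τ ((n + 1 : ℕ) : ℝ) - nit τ (n : ℝ))‖ ≤ M * |τ| * (2 * √(Y : ℝ)) := by
    refine le_trans (norm_sum_le _ _) ?_
    calc ∑ n ∈ Ioc 0 Y, ‖(∑ k ∈ Ioc 0 n, rf (HC ψ 0 i κ) k) *
          (nit τ ((n + 1 : ℕ) : ℝ) - nit τ (n : ℝ))‖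
        ≤ ∑ n ∈ Ioc 0 Y, M * |τ| * (√(n : ℝ) / n) := by
          apply Finset.sum_le_sum
          intro n hn
          rw [Finset.mem_Ioc] at hn
          rw [norm_mul]
          calc ‖∑ k ∈ Ioc 0 n, rf (HC ψ 0 i κ) k‖ * ‖nit τ ((n + 1 : ℕ) : ℝ) - nit τ (n : ℝ)‖
              ≤ (M * √(n : ℝ)) * (|τ| / n) := by
                apply mul_le_mul (hP' n) (SMB_nit_diff τ n (by omega)) (norm_nonneg _)
                positivity
            _ = M * |τ| * (√(n : ℝ) / n) := by ring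
      _ = M * |τ| * ∑ n ∈ Ioc 0 Y, √(n : ℝ) / n := by rw [Finset.mul_sum]
      _ ≤ M * |τ| * (2 * √(Y : ℝ)) := mul_le_mul_of_nonneg_left (SMB_sqrt Y) (by positivity)
  refine le_trans (norm_sub_le _ _) ?_
  have h4 : 0 ≤ M * √(Y : ℝ) := by positivity
  calc _ ≤ M * √(Y : ℝ) + M * |τ| * (2 * √(Y : ℝ)) := add_le_add h2 h3
    _ ≤ M * (2 + 2 * |τ|) * √(Y : ℝ) := by nlinarith

open scoped Classical in
/-- the principal character on the odd elements -/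
def SMB_ch (d : ℕ) (z : ℤ × ℤ) : ℂ := if z.1 % 2 = 1 ∧ Nat.Coprime (nn z) d then 1 else 0

/-- the same at half of an even element -/
def SMB_ce (d : ℕ) (z : ℤ × ℤ) : ℂ :=
  if z.1 % 2 = 0 ∧ z.2 % 2 = 0 then SMB_ch d (z.1 / 2, z.2 / 2) else 0

theorem SMB_ch_per (d : ℕ) (z z' : ℤ × ℤ) (h1 : ((2 * d : ℕ) : ℤ) ∣ z.1 - z'.1)
    (h2 : ((2 * d : ℕ) : ℤ) ∣ z.2 - z'.2) : SMB_ch d z = SMB_ch d z' := by
  have a1 : (2 : ℤ) ∣ ((2 * d : ℕ) : ℤ) := ⟨(d : ℤ), by push_cast; ring⟩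
  have a2 : (d : ℤ) ∣ ((2 * d : ℕ) : ℤ) := ⟨2, by push_cast; ring⟩
  have b1 : z.1 % 2 = 1 ↔ z'.1 % 2 = 1 := by
    have := a1.trans h1
    omega
  have b2 := PPR_cop_per d z z' (a2.trans h1) (a2.trans h2)
  unfold SMB_ch
  exact if_congr (and_congr b1 b2) rfl rfl

theorem SMB_ce_per (d : ℕ) (z z' : ℤ × ℤ) (h1 : ((4 * d : ℕ) : ℤ) ∣ z.1 - z'.1)
    (h2 : ((4 * d : ℕ) : ℤ) ∣ z.2 - z'.2) : SMB_ce d z = SMB_ce d z' := by
  have a1 : (2 : ℤ) ∣ ((4 * d : ℕ) : ℤ) := ⟨(2 * d : ℤ), by push_cast; ring⟩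
  have b1 : z.1 % 2 = 0 ↔ z'.1 % 2 = 0 := by
    have := a1.trans h1
    omega
  have b2 : z.2 % 2 = 0 ↔ z'.2 % 2 = 0 := by
    have := a1.trans h2
    omega
  unfold SMB_ce
  by_cases h : z.1 % 2 = 0 ∧ z.2 % 2 = 0
  · have h' : z'.1 % 2 = 0 ∧ z'.2 % 2 = 0 := ⟨b1.mp h.1, b2.mp h.2⟩
    rw [if_pos h, if_pos h']
    apply SMB_ch_per
    · obtain ⟨c, hc⟩ := h1
      refine ⟨c, ?_⟩
      have e1 : z.1 = 2 * (z.1 / 2) := by omega
      have e2 : z'.1 = 2 * (z'.1 / 2) := by omega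
      push_cast at hc ⊢
      have : 2 * (z.1 / 2 - z'.1 / 2) = 2 * (2 * d * c) := by
        rw [mul_sub, ← e1, ← e2, hc]; ring
      linarith
    · obtain ⟨c, hc⟩ := h2
      refine ⟨c, ?_⟩
      have e1 : z.2 = 2 * (z.2 / 2) := by omega
      have e2 : z'.2 = 2 * (z'.2 / 2) := by omega
      push_cast at hc ⊢
      have : 2 * (z.2 / 2 - z'.2 / 2) = 2 * (2 * d * c) := by
        rw [mul_sub, ← e1, ← e2, hc]; ring
      linarith
  · have h' : ¬ (z'.1 % 2 = 0 ∧ z'.2 % 2 = 0) := fun hh => h ⟨b1.mpr hh.1, b2.mpr hh.2⟩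
    rw [if_neg h, if_neg h']

/-- the difference, divided by 4 -/
def SMB_cp (d : ℕ) (z : ℤ × ℤ) : ℂ := (SMB_ch d z - 4 * SMB_ce d z) / 4

theorem SMB_cp_norm (d : ℕ) (z : ℤ × ℤ) : ‖SMB_cp d z‖ ≤ 1 := by
  unfold SMB_cp SMB_ce SMB_ch
  rcases Int.emod_two_eq_zero_or_one z.1 with h | h
  · rw [if_neg (fun hh => by rw [h] at hh; exact absurd hh.1 (by norm_num))]
    split_ifs
    · norm_num
    · norm_num
    · norm_num
  · rw [if_neg (show ¬ (z.1 % 2 = 0 ∧ z.2 % 2 = 0) from fun hh => by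
      rw [h] at hh; exact absurd hh.1 (by norm_num))]
    split_ifs
    · norm_num
    · norm_num

theorem SMB_double (N : ℕ) (g : ℤ → ℂ) (hg : ∀ a : ℤ, g (a + N) = g a) :
    ∑ a ∈ range (2 * N), g (a : ℤ) = 2 * ∑ a ∈ range N, g (a : ℤ) := by
  rw [two_mul, Finset.sum_range_add, two_mul]
  congr 1
  apply Finset.sum_congr rfl
  intro a _
  rw [← hg (a : ℤ)]
  congr 1
  push_cast
  ring

theorem SMB_half (N : ℕ) (g : ℤ → ℂ) :
    ∑ a ∈ range (2 * N), (if (a : ℤ) % 2 = 0 then g ((a : ℤ) / 2) else 0) = ∑ a ∈ range N, g (a : ℤ) := by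
  induction N with
  | zero => simp
  | succ N ih =>
    rw [show 2 * (N + 1) = 2 * N + 1 + 1 by ring, Finset.sum_range_succ, Finset.sum_range_succ, ih,
      Finset.sum_range_succ]
    have e1 : (((2 * N : ℕ) : ℤ)) % 2 = 0 := by omega
    have e2 : ¬ (((2 * N + 1 : ℕ) : ℤ)) % 2 = 0 := by omega
    have e3 : (((2 * N : ℕ) : ℤ)) / 2 = (N : ℤ) := by omega
    rw [if_pos e1, if_neg e2, e3, add_zero]

theorem SMB_cp_sum (d : ℕ) :
    ∑ v ∈ range (4 * d) ×ˢ range (4 * d), SMB_cp d ((v.1 : ℤ), (v.2 : ℤ)) = 0 := by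
  have hp1 : ∀ a b : ℤ, SMB_ch d (a + (2 * d : ℕ), b) = SMB_ch d (a, b) := by
    intro a b
    apply SMB_ch_per <;> simp
  have hp2 : ∀ a b : ℤ, SMB_ch d (a, b + (2 * d : ℕ)) = SMB_ch d (a, b) := by
    intro a b
    apply SMB_ch_per <;> simp
  have h1 : ∑ v ∈ range (4 * d) ×ˢ range (4 * d), SMB_ch d ((v.1 : ℤ), (v.2 : ℤ)) =
      4 * ∑ v ∈ range (2 * d) ×ˢ range (2 * d), SMB_ch d ((v.1 : ℤ), (v.2 : ℤ)) := by
    rw [Finset.sum_product, Finset.sum_product, show 4 * d = 2 * (2 * d) by ring]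
    have e1 : ∀ a : ℤ, ∑ b ∈ range (2 * (2 * d)), SMB_ch d (a, (b : ℤ)) =
        2 * ∑ b ∈ range (2 * d), SMB_ch d (a, (b : ℤ)) := fun a =>
      SMB_double (2 * d) (fun b => SMB_ch d (a, b)) (fun b => hp2 a b)
    show ∑ a ∈ range (2 * (2 * d)), ∑ b ∈ range (2 * (2 * d)), SMB_ch d ((a : ℤ), (b : ℤ)) =
      4 * ∑ a ∈ range (2 * d), ∑ b ∈ range (2 * d), SMB_ch d ((a : ℤ), (b : ℤ))
    rw [Finset.sum_congr rfl (fun (a : ℕ) _ => e1 (a : ℤ)), ← Finset.mul_sum]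
    rw [SMB_double (2 * d) (fun a => ∑ b ∈ range (2 * d), SMB_ch d (a, (b : ℤ)))
      (fun a => Finset.sum_congr rfl (fun b _ => hp1 a b))]
    ring
  have h2 : ∑ v ∈ range (4 * d) ×ˢ range (4 * d), SMB_ce d ((v.1 : ℤ), (v.2 : ℤ)) =
      ∑ v ∈ range (2 * d) ×ˢ range (2 * d), SMB_ch d ((v.1 : ℤ), (v.2 : ℤ)) := by
    rw [Finset.sum_product, Finset.sum_product, show 4 * d = 2 * (2 * d) by ring]
    rw [← SMB_half (2 * d) (fun a => ∑ b ∈ range (2 * d), SMB_ch d (a, (b : ℤ)))]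
    apply Finset.sum_congr rfl
    intro a _
    by_cases ha : (a : ℤ) % 2 = 0
    · rw [if_pos ha, ← SMB_half (2 * d) (fun b => SMB_ch d ((a : ℤ) / 2, b))]
      apply Finset.sum_congr rfl
      intro b _
      unfold SMB_ce
      by_cases hb : (b : ℤ) % 2 = 0
      · rw [if_pos ⟨ha, hb⟩, if_pos hb]
      · rw [if_neg (fun h => hb h.2), if_neg hb]
    · rw [if_neg ha]
      apply Finset.sum_eq_zero
      intro b _
      unfold SMB_ce
      rw [if_neg (fun h => ha h.1)]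
  unfold SMB_cp
  rw [← Finset.sum_div, Finset.sum_sub_distrib, ← Finset.mul_sum, h1, h2, sub_self, zero_div]

theorem SMB_Fyt_supp (i : ℕ) (κ τ : ℝ) (Y : ℕ) (z : ℤ × ℤ) (h : Fyt i κ τ Y z ≠ 0) :
    |z.1| ≤ ((2 * Y : ℕ) : ℤ) ∧ |z.2| ≤ ((2 * Y : ℕ) : ℤ) := by
  apply PPR_supp i κ Y z
  intro h0
  apply h
  unfold Fyt
  rw [h0, zero_mul]

open scoped Classical in
theorem SMB_rep (d : ℕ) (ψ : ℤ × ℤ → ℂ) (hψ : IsRC d ψ) (i : ℕ) (κ τ : ℝ)
    (hp : ∀ z, Nat.Coprime (nn z) d → ψ z = 1) (Y : ℕ) :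
    SMB_S ψ i κ τ Y = ∑ z ∈ Bx (2 * Y), SMB_ch d z * Fyt i κ τ Y z := by
  have hpt : ∀ z : ℤ × ℤ, SMB_ch d z * Fyt i κ τ Y z =
      if Fd z ∧ nn z ≤ Y then HC ψ 0 i κ z * nit τ (nn z) else 0 := by
    intro z
    by_cases hF : Fd z ∧ nn z ≤ Y
    · rw [if_pos hF]
      obtain ⟨⟨ho, hc⟩, hY⟩ := hF
      by_cases hcop : Nat.Coprime (nn z) d
      · unfold SMB_ch Fyt HC Fy
        rw [if_pos ⟨ho, hcop⟩, if_pos ⟨hc, hY⟩, hp z hcop]
        simp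
      · unfold SMB_ch HC
        rw [if_neg (fun h => hcop h.2), hψ.2.2.1 z hcop]
        simp
    · rw [if_neg hF]
      by_cases ho : z.1 % 2 = 1
      · have : Fyt i κ τ Y z = 0 := by
          unfold Fyt Fy
          rw [if_neg (fun h => hF ⟨⟨ho, h.1⟩, h.2⟩), zero_mul]
        rw [this, mul_zero]
      · unfold SMB_ch
        rw [if_neg (fun h => ho h.1), zero_mul]
  rw [Finset.sum_congr rfl (fun z _ => hpt z), ← Finset.sum_filter]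
  have e : (Bx (2 * Y)).filter (fun z => Fd z ∧ nn z ≤ Y) = FF Y := by
    unfold Bx FF
    push_cast
    rfl
  rw [e]
  rfl

theorem SMB_nn_two (w : ℤ × ℤ) : nn (2 * w.1, 2 * w.2) = 4 * nn w := by
  unfold nn N8
  have : (2 * w.1) ^ 2 - 8 * (2 * w.2) ^ 2 = 4 * (w.1 ^ 2 - 8 * w.2 ^ 2) := by ring
  simp only [this, Int.natAbs_mul]
  rfl

theorem SMB_yy_two (w : ℤ × ℤ) : yy (2 * w.1, 2 * w.2) = yy w := by
  unfold yy
  congr 1
  push_cast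
  have e1 : 2 * (w.1 : ℝ) + 2 * (w.2 : ℝ) * √8 = 2 * ((w.1 : ℝ) + w.2 * √8) := by ring
  have e2 : 2 * (w.1 : ℝ) - 2 * (w.2 : ℝ) * √8 = 2 * ((w.1 : ℝ) - w.2 * √8) := by ring
  rw [e1, e2, abs_mul, abs_mul, mul_div_mul_left]
  norm_num

theorem SMB_Fyt_two (i : ℕ) (κ τ : ℝ) (Y : ℕ) (w : ℤ × ℤ) :
    Fyt i κ τ (4 * Y) (2 * w.1, 2 * w.2) = nit τ 4 * Fyt i κ τ Y w := by
  unfold Fyt Fy
  rw [SMB_nn_two, SMB_yy_two]
  have e1 : N8 (2 * w.1, 2 * w.2) = 4 * N8 w := by unfold N8; ring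
  have e2 : (N8 (2 * w.1, 2 * w.2)).sign = (N8 w).sign := by
    rw [e1, Int.sign_mul]
    have : Int.sign 4 = 1 := rfl
    rw [this, one_mul]
  rw [e2]
  have e3 : (4 * |2 * w.2| < 2 * w.1 ∨ |2 * w.1| < 2 * (2 * w.2)) ↔
      (4 * |w.2| < w.1 ∨ |w.1| < 2 * w.2) := by
    rw [abs_mul, abs_mul, abs_two]
    constructor
    · rintro (h | h)
      · left; linarith
      · right; linarith
    · rintro (h | h)
      · left; linarith
      · right; linarith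
  have e4 : 4 * nn w ≤ 4 * Y ↔ nn w ≤ Y := by omega
  by_cases hc : (4 * |w.2| < w.1 ∨ |w.1| < 2 * w.2) ∧ nn w ≤ Y
  · have hc' : (4 * |(2 * w.1, 2 * w.2).2| < (2 * w.1, 2 * w.2).1 ∨
        |(2 * w.1, 2 * w.2).1| < 2 * (2 * w.1, 2 * w.2).2) ∧ 4 * nn w ≤ 4 * Y :=
      ⟨e3.mpr hc.1, e4.mpr hc.2⟩
    rw [if_pos hc', if_pos hc]
    have hn : (nn w : ℝ) ≠ 0 := by
      have h0 : N8 w ≠ 0 := by
        intro h0
        unfold N8 at h0
        rcases hc.1 with h | h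
        · have h5 := sq_abs w.2
          have h6 := abs_nonneg w.2
          nlinarith
        · have h5 := sq_abs w.1
          have h6 := abs_nonneg w.1
          nlinarith
      have : nn w ≠ 0 := Int.natAbs_ne_zero.mpr h0
      exact_mod_cast this
    have : ((4 * nn w : ℕ) : ℝ) = 4 * (nn w : ℝ) := by push_cast; ring
    rw [this, SMB_nit_mul τ 4 (nn w) (by norm_num) hn]
    ring
  · have hc' : ¬ ((4 * |(2 * w.1, 2 * w.2).2| < (2 * w.1, 2 * w.2).1 ∨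
        |(2 * w.1, 2 * w.2).1| < 2 * (2 * w.1, 2 * w.2).2) ∧ 4 * nn w ≤ 4 * Y) :=
      fun h => hc ⟨e3.mp h.1, e4.mp h.2⟩
    rw [if_neg hc', if_neg hc]
    simp

theorem SMB_even (d : ℕ) (i : ℕ) (κ τ : ℝ) (Y : ℕ) :
    ∑ z ∈ Bx (2 * (4 * Y)), SMB_ce d z * Fyt i κ τ (4 * Y) z =
      nit τ 4 * ∑ w ∈ Bx (2 * Y), SMB_ch d w * Fyt i κ τ Y w := by
  have h1 : ∑ z ∈ Bx (2 * (4 * Y)), SMB_ce d z * Fyt i κ τ (4 * Y) z =
      ∑ z ∈ (Bx (2 * (4 * Y))).filter (fun z => z.1 % 2 = 0 ∧ z.2 % 2 = 0),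
        SMB_ch d (z.1 / 2, z.2 / 2) * Fyt i κ τ (4 * Y) z := by
    rw [Finset.sum_filter]
    apply Finset.sum_congr rfl
    intro z _
    unfold SMB_ce
    rw [ite_mul, zero_mul]
  have h2 : ∑ z ∈ (Bx (2 * (4 * Y))).filter (fun z => z.1 % 2 = 0 ∧ z.2 % 2 = 0),
        SMB_ch d (z.1 / 2, z.2 / 2) * Fyt i κ τ (4 * Y) z =
      ∑ w ∈ Bx (4 * Y), SMB_ch d w * (nit τ 4 * Fyt i κ τ Y w) := by
    refine Finset.sum_nbij' (fun z => (z.1 / 2, z.2 / 2)) (fun w => (2 * w.1, 2 * w.2)) ?_ ?_ ?_ ?_ ?_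
    · intro z hz
      simp only [Bx, Finset.mem_filter, Finset.mem_product, Finset.mem_Icc] at hz ⊢
      push_cast at hz ⊢
      omega
    · intro w hw
      simp only [Bx, Finset.mem_filter, Finset.mem_product, Finset.mem_Icc] at hw ⊢
      push_cast at hw ⊢
      omega
    · intro z hz
      simp only [Bx, Finset.mem_filter, Finset.mem_product, Finset.mem_Icc] at hz
      ext
      · simp only
        omega
      · simp only
        omega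
    · intro w _
      ext
      · simp only
        omega
      · simp only
        omega
    · intro z hz
      simp only [Bx, Finset.mem_filter, Finset.mem_product, Finset.mem_Icc] at hz
      have e : z = (2 * (z.1 / 2, z.2 / 2).1, 2 * (z.1 / 2, z.2 / 2).2) := by
        ext
        · simp only
          omega
        · simp only
          omega
      conv_lhs => rw [e]
      rw [SMB_Fyt_two]
      simp only [Int.mul_ediv_cancel_left _ (two_ne_zero)]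
  rw [h1, h2]
  have h3 : ∑ w ∈ Bx (4 * Y), SMB_ch d w * (nit τ 4 * Fyt i κ τ Y w) =
      ∑ w ∈ Bx (2 * Y), SMB_ch d w * (nit τ 4 * Fyt i κ τ Y w) := by
    symm
    apply Finset.sum_subset
    · intro w hw
      simp only [Bx, Finset.mem_product, Finset.mem_Icc] at hw ⊢
      push_cast at hw ⊢
      omega
    · intro w _ hw
      have : Fyt i κ τ Y w = 0 := by
        by_contra h
        apply hw
        have h4 := SMB_Fyt_supp i κ τ Y w h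
        simp only [Bx, Finset.mem_product, Finset.mem_Icc]
        exact ⟨abs_le.mp h4.1, abs_le.mp h4.2⟩
      rw [this, mul_zero, mul_zero]
  rw [h3, Finset.mul_sum]
  apply Finset.sum_congr rfl
  intro w _
  ring

theorem SMB_step (hVAR : VAR_stmt) (C : ℝ)
    (hV : ∀ (i : ℕ) (κ τ : ℝ) (y B : ℕ),
      Va (Fyt i κ τ y) B ≤ C * (1 + |κ| + |τ| * (1 + Real.log y)) * √(y : ℝ))
    (d : ℕ) (hd : 0 < d) (ψ : ℤ × ℤ → ℂ) (hψ : IsRC d ψ) (i : ℕ) (κ τ : ℝ)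
    (hp : ∀ z, Nat.Coprime (nn z) d → ψ z = 1) (Y : ℕ) (hY : 1 ≤ Y) :
    ‖SMB_S ψ i κ τ Y‖ ≤ ‖SMB_S ψ i κ τ (4 * Y)‖ / 4 +
      128 * C * (d : ℝ) ^ 3 * (1 + |κ| + |τ| * (1 + Real.log 4 + Real.log Y)) * √(Y : ℝ) := by
  have h1 := SMB_rep d ψ hψ i κ τ hp Y
  have h2 := SMB_rep d ψ hψ i κ τ hp (4 * Y)
  have h3 := SMB_even d i κ τ Y
  rw [← h1] at h3
  have h4 : ∑ z ∈ Bx (2 * (4 * Y)), SMB_cp d z * Fyt i κ τ (4 * Y) z =
      (SMB_S ψ i κ τ (4 * Y) - 4 * (nit τ 4 * SMB_S ψ i κ τ Y)) / 4 := by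
    rw [← h3, h2, Finset.mul_sum, ← Finset.sum_sub_distrib, Finset.sum_div]
    apply Finset.sum_congr rfl
    intro z _
    unfold SMB_cp
    ring
  have h5 := hVAR (4 * d) (by omega) (SMB_cp d) (SMB_cp_norm d) (fun z w a b => by
    unfold SMB_cp
    have a' : ((2 * d : ℕ) : ℤ) ∣ z.1 - w.1 := Dvd.dvd.trans ⟨2, by push_cast; ring⟩ a
    have b' : ((2 * d : ℕ) : ℤ) ∣ z.2 - w.2 := Dvd.dvd.trans ⟨2, by push_cast; ring⟩ b
    rw [SMB_ch_per d z w a' b', SMB_ce_per d z w a b]) (SMB_cp_sum d)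
    (2 * (4 * Y)) (Fyt i κ τ (4 * Y)) (fun z hz => SMB_Fyt_supp i κ τ (4 * Y) z hz)
  have h6 := hV i κ τ (4 * Y) (2 * (4 * Y))
  rw [h4] at h5
  have hY0 : (0 : ℝ) < Y := by exact_mod_cast hY
  have h7 : Real.log ((4 * Y : ℕ) : ℝ) = Real.log 4 + Real.log Y := by
    push_cast
    rw [Real.log_mul (by norm_num) hY0.ne']
  have h8 : √((4 * Y : ℕ) : ℝ) = 2 * √(Y : ℝ) := by
    push_cast
    rw [Real.sqrt_mul (by norm_num)]
    congr 1
    rw [show (4 : ℝ) = 2 ^ 2 by norm_num]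
    exact Real.sqrt_sq (by norm_num)
  rw [h7, h8, ← add_assoc] at h6
  have h9 : ‖(SMB_S ψ i κ τ (4 * Y) - 4 * (nit τ 4 * SMB_S ψ i κ τ Y)) / 4‖ ≤
      128 * C * (d : ℝ) ^ 3 * (1 + |κ| + |τ| * (1 + Real.log 4 + Real.log Y)) * √(Y : ℝ) := by
    refine le_trans h5 ?_
    calc _ ≤ ((4 * d : ℕ) : ℝ) ^ 3 *
          (C * (1 + |κ| + |τ| * (1 + Real.log 4 + Real.log Y)) * (2 * √(Y : ℝ))) :=
          mul_le_mul_of_nonneg_left h6 (by positivity)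
      _ = _ := by push_cast; ring
  have h10 : ‖SMB_S ψ i κ τ Y‖ = ‖nit τ 4 * SMB_S ψ i κ τ Y‖ := by
    rw [norm_mul, SMB_nit_norm, one_mul]
  have h11 : nit τ 4 * SMB_S ψ i κ τ Y = SMB_S ψ i κ τ (4 * Y) / 4 -
      (SMB_S ψ i κ τ (4 * Y) - 4 * (nit τ 4 * SMB_S ψ i κ τ Y)) / 4 := by ring
  rw [h10, h11]
  refine le_trans (norm_sub_le _ _) ?_
  apply add_le_add _ h9
  rw [norm_div]
  norm_num

theorem SMB (hVAR : VAR_stmt) (hVTT : VTT_stmt) (hPPR : PPR_stmt) (hSIZ : SIZ_stmt)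
    (hSRF : SRF_stmt) : SMB_stmt := by
  obtain ⟨C, hC, hV⟩ := hVTT
  obtain ⟨C₁, hC₁, hP⟩ := hPPR
  refine ⟨3 * (128 * 4 * C), by positivity, ?_⟩
  intro d hd ψ hψ i κ τ hp hκ hU y
  have hd0 : 0 < d := hd.pos
  have hκ0 := abs_nonneg κ
  have hτ0 := abs_nonneg τ
  rcases Nat.eq_zero_or_pos y with hy | hy
  · subst hy
    have : FF 0 = ∅ := by
      apply Finset.eq_empty_of_forall_notMem
      intro z hz
      rw [PPR_mem hSIZ] at hz
      have := (hSIZ z hz.1).2.2.1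
      omega
    rw [this]
    simp
  set e : ℝ := 128 * 4 * C * (d : ℝ) ^ 3 with he
  have he0 : 0 < e := by
    have : (0 : ℝ) < d := by exact_mod_cast hd0
    positivity
  have hl4 : Real.log 4 ≤ 1.4 := by
    have h1 : Real.log 4 = 2 * Real.log 2 := by
      rw [show (4 : ℝ) = 2 ^ 2 by norm_num, Real.log_pow]
      norm_num
    have h2 := Real.log_two_lt_d9
    linarith
  have hl40 : 0 ≤ Real.log 4 := Real.log_nonneg (by norm_num)
  -- the potential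
  have key : ∀ K : ℕ, ∀ Y : ℕ, 1 ≤ Y → ‖SMB_S ψ i κ τ Y‖ ≤
      ‖SMB_S ψ i κ τ (4 ^ K * Y)‖ / 4 ^ K + e * ((1 + |κ|) + |τ| * (3 + Real.log Y)) * √(Y : ℝ) := by
    intro K
    induction K with
    | zero =>
      intro Y hY
      have hY1 : (1 : ℝ) ≤ Y := by exact_mod_cast hY
      have hlY := Real.log_nonneg hY1
      simp only [pow_zero, one_mul, div_one]
      have : 0 ≤ e * ((1 + |κ|) + |τ| * (3 + Real.log Y)) * √(Y : ℝ) := by positivity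
      linarith
    | succ K ih =>
      intro Y hY
      have hY1 : (1 : ℝ) ≤ Y := by exact_mod_cast hY
      have hlY := Real.log_nonneg hY1
      have hY0 : (0 : ℝ) < Y := by linarith
      have h1 := SMB_step hVAR C hV d hd0 ψ hψ i κ τ hp Y hY
      have h2 := ih (4 * Y) (by omega)
      have h7 : Real.log ((4 * Y : ℕ) : ℝ) = Real.log 4 + Real.log Y := by
        push_cast
        rw [Real.log_mul (by norm_num) hY0.ne']
      have h8 : √((4 * Y : ℕ) : ℝ) = 2 * √(Y : ℝ) := by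
        push_cast
        rw [Real.sqrt_mul (by norm_num)]
        congr 1
        rw [show (4 : ℝ) = 2 ^ 2 by norm_num]
        exact Real.sqrt_sq (by norm_num)
      have h9 : 4 ^ K * (4 * Y) = 4 ^ (K + 1) * Y := by ring
      rw [h7, h8, h9] at h2
      have hs0 : 0 ≤ √(Y : ℝ) := Real.sqrt_nonneg _
      have h3 : 128 * C * (d : ℝ) ^ 3 = e / 4 := by rw [he]; ring
      rw [h3] at h1
      have h4 : ‖SMB_S ψ i κ τ (4 ^ (K + 1) * Y)‖ / 4 ^ K / 4 =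
          ‖SMB_S ψ i κ τ (4 ^ (K + 1) * Y)‖ / 4 ^ (K + 1) := by
        rw [div_div, ← pow_succ]
      set s := √(Y : ℝ)
      set lY := Real.log (Y : ℝ)
      set A := ‖SMB_S ψ i κ τ (4 ^ (K + 1) * Y)‖ with hA
      have h5 : e * (1 + |κ| + |τ| * (3 + (Real.log 4 + lY))) * (2 * s) / 4 +
          e / 4 * (1 + |κ| + |τ| * (1 + Real.log 4 + lY)) * s ≤
          e * (1 + |κ| + |τ| * (3 + lY)) * s := by
        have h6 : e * (1 + |κ| + |τ| * (3 + lY)) * s -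
          (e * (1 + |κ| + |τ| * (3 + (Real.log 4 + lY))) * (2 * s) / 4 +
          e / 4 * (1 + |κ| + |τ| * (1 + Real.log 4 + lY)) * s) =
          e * s / 4 * ((1 + |κ|) + |τ| * (5 - 3 * Real.log 4 + lY)) := by ring
        have h10 : 0 ≤ e * s / 4 * ((1 + |κ|) + |τ| * (5 - 3 * Real.log 4 + lY)) := by
          have : 0 ≤ 5 - 3 * Real.log 4 + lY := by linarith
          positivity
        linarith
      have h11 : ‖SMB_S ψ i κ τ (4 * Y)‖ / 4 ≤ (A / 4 ^ K +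
          e * (1 + |κ| + |τ| * (3 + (Real.log 4 + lY))) * (2 * s)) / 4 := by
        linarith
      rw [add_div, h4] at h11
      linarith
  -- the limit
  set M : ℝ := C₁ * (d * (1 + |κ|)) ^ 12 with hM
  have hM0 : 0 ≤ M := by positivity
  have hlim : ∀ K : ℕ, ‖SMB_S ψ i κ τ y‖ ≤ M * (2 + 2 * |τ|) * √(y : ℝ) * (1 / 2) ^ K +
      e * ((1 + |κ|) + |τ| * (3 + Real.log y)) * √(y : ℝ) := by
    intro K
    have h1 := key K y hy
    have h2 := SMB_partial hSRF ψ i κ τ M hM0 (fun z => hP d hd ψ hψ i κ hp hκ hU z) (4 ^ K * y)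
    have h3 : √((4 ^ K * y : ℕ) : ℝ) = 2 ^ K * √(y : ℝ) := by
      push_cast
      rw [Real.sqrt_mul (by positivity)]
      congr 1
      rw [show (4 : ℝ) ^ K = (2 ^ K) ^ 2 by rw [← pow_mul, mul_comm, pow_mul]; norm_num]
      exact Real.sqrt_sq (by positivity)
    rw [h3] at h2
    have h4 : ‖SMB_S ψ i κ τ (4 ^ K * y)‖ / 4 ^ K ≤
        M * (2 + 2 * |τ|) * √(y : ℝ) * (1 / 2) ^ K := by
      rw [div_le_iff₀ (by positivity)]
      refine le_trans h2 (le_of_eq ?_)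
      have : (1 / 2 : ℝ) ^ K * 4 ^ K = 2 ^ K := by
        rw [← mul_pow]; norm_num
      calc M * (2 + 2 * |τ|) * (2 ^ K * √(y : ℝ)) = M * (2 + 2 * |τ|) * √(y : ℝ) * 2 ^ K := by ring
        _ = M * (2 + 2 * |τ|) * √(y : ℝ) * ((1 / 2 : ℝ) ^ K * 4 ^ K) := by rw [this]
        _ = _ := by ring
    linarith
  have hfin : ‖SMB_S ψ i κ τ y‖ ≤ e * ((1 + |κ|) + |τ| * (3 + Real.log y)) * √(y : ℝ) := by
    have ht : Filter.Tendsto (fun K : ℕ => M * (2 + 2 * |τ|) * √(y : ℝ) * (1 / 2 : ℝ) ^ K +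
        e * ((1 + |κ|) + |τ| * (3 + Real.log y)) * √(y : ℝ)) Filter.atTop
        (nhds (M * (2 + 2 * |τ|) * √(y : ℝ) * 0 +
          e * ((1 + |κ|) + |τ| * (3 + Real.log y)) * √(y : ℝ))) := by
      apply Filter.Tendsto.add_const
      apply Filter.Tendsto.const_mul
      exact tendsto_pow_atTop_nhds_zero_of_lt_one (by norm_num) (by norm_num)
    have := ge_of_tendsto' ht hlim
    rw [mul_zero, zero_add] at this
    exact this
  have hy1 : (1 : ℝ) ≤ y := by exact_mod_cast hy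
  have hly := Real.log_nonneg hy1
  have hs0 : 0 ≤ √(y : ℝ) := Real.sqrt_nonneg _
  change ‖SMB_S ψ i κ τ y‖ ≤ _
  refine le_trans hfin ?_
  have e1 : 3 * (128 * 4 * C) * (d : ℝ) ^ 3 * (1 + |κ| + |τ| * (1 + Real.log y)) * √(y : ℝ) =
      e * (3 * (1 + |κ| + |τ| * (1 + Real.log y))) * √(y : ℝ) := by rw [he]; ring
  rw [e1]
  apply mul_le_mul_of_nonneg_right _ hs0
  apply mul_le_mul_of_nonneg_left _ he0.le
  have : 0 ≤ |τ| * Real.log y := by positivity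
  linarith

end Pool.Agent.BP
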